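import Pool.Agent.Helper34.EC.Defs

/-!
# Project EC, module A6: the fraction field of a filtered algebra is a function field
-/

set_option autoImplicit false
set_option linter.style.haveILetI false

namespace Pool.Agent.Helper88.EC

open Polynomial TensorProduct Pool.Agent.Helper16 Pool.Agent.Helper34.EC

section A

variable {F A : Type} [Field F] [CommRing A] [Algebra F A] {g : ℕ}

theorem exists_bound (P : Filt F A g) : ∃ N : ℕ, ∀ n, N ≤ n → n ∈ P.H := by
  have h1 : (P.Hᶜ).Finite := by
    rw [← Set.encard_lt_top_iff, P.gaps]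
    exact ENat.natCast_lt_top g
  obtain ⟨N, hN⟩ := h1.bddAbove
  refine ⟨N + 1, fun n hn => ?_⟩
  by_contra hcon
  have := hN (show n ∈ P.Hᶜ from hcon)
  omega

theorem infinite_H (P : Filt F A g) : Infinite P.H := by
  obtain ⟨N, hN⟩ := exists_bound P
  exact Infinite.of_injective (fun n : ℕ => (⟨N + n, hN _ (by omega)⟩ : P.H))
    (fun a b hab => by
      have := congrArg Subtype.val hab
      simp only at this
      omega)

/-- The algebra is finite over the subalgebra generated by an element of positive order. -/
theorem finite_adjoin (P : Filt F A g) (d : P.H) (hd : 0 < (d : ℕ)) :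
    Module.Finite (Algebra.adjoin F {P.e d}) A := by
  classical
  obtain ⟨N, hN⟩ := exists_bound P
  set S := Algebra.adjoin F {P.e d} with hS
  have hh : P.e d ∈ S := Algebra.subset_adjoin rfl
  set T : Set P.H := {l | (l : ℕ) < N + d} with hT
  have hTf : T.Finite := by
    have h1 : ((fun l : P.H => (l : ℕ)) ⁻¹' (Set.Iio (N + d))).Finite :=
      (Set.finite_Iio _).preimage (Subtype.val_injective.injOn)
    exact h1
  set M : Submodule S A := Submodule.span S (P.e '' T) with hM
  have key : ∀ n : ℕ, ∀ l : P.H, (l : ℕ) = n → P.e l ∈ M := by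
    intro n
    induction n using Nat.strong_induction_on with
    | _ n ih =>
      intro l hl
      by_cases hlt : (l : ℕ) < N + d
      · exact Submodule.subset_span ⟨l, hlt, rfl⟩
      · have hl' : (l : ℕ) - d ∈ P.H := hN _ (by omega)
        have hadd : (⟨(d : ℕ) + ((l : ℕ) - d), P.add_mem d.2 hl'⟩ : P.H) = l := by
          apply Subtype.ext
          change (d : ℕ) + ((l : ℕ) - d) = l
          omega
        have h1 := P.mul d ⟨(l : ℕ) - d, hl'⟩
        have h2 : P.e d * P.e ⟨(l : ℕ) - d, hl'⟩ - P.e l ∈ M := by
          rw [show P.e l = P.e ⟨(d : ℕ) + ((l : ℕ) - d), P.add_mem d.2 hl'⟩ by rw [hadd]]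
          have h3 : Submodule.span F (P.e '' {k | (k : ℕ) < (d : ℕ) + ((l : ℕ) - d)}) ≤
              M.restrictScalars F := by
            rw [Submodule.span_le]
            rintro _ ⟨k, hk, rfl⟩
            refine ih k ?_ k rfl
            have hk' : (k : ℕ) < (d : ℕ) + ((l : ℕ) - d) := hk
            omega
          exact h3 h1
        have h4 : P.e d * P.e ⟨(l : ℕ) - d, hl'⟩ ∈ M := by
          have h5 : P.e ⟨(l : ℕ) - d, hl'⟩ ∈ M := ih ((l : ℕ) - d) (by omega) _ rfl
          exact M.smul_mem (⟨P.e d, hh⟩ : S) h5
        have h6 := M.sub_mem h4 h2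
        rwa [sub_sub_cancel] at h6
  have htop : M = ⊤ := by
    rw [eq_top_iff]
    intro x _
    have h1 : x ∈ Submodule.span F (Set.range P.e) := by
      rw [P.e.span_eq]; trivial
    have h2 : Submodule.span F (Set.range P.e) ≤ M.restrictScalars F := by
      rw [Submodule.span_le]
      rintro _ ⟨l, rfl⟩
      exact key _ l rfl
    exact h2 h1
  refine ⟨?_⟩
  rw [← htop]
  exact Submodule.fg_span (hTf.image _)

/-- An element of positive order is transcendental. -/
theorem transcendental_e (P : Filt F A g) (d : P.H) (hd : 0 < (d : ℕ)) :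
    Transcendental F (P.e d) := by
  intro halg
  haveI := finite_adjoin P d hd
  haveI : Module.Finite F (Algebra.adjoin F {P.e d}) :=
    Algebra.finite_adjoin_simple_of_isIntegral halg.isIntegral
  haveI : Module.Finite F A := Module.Finite.trans (Algebra.adjoin F {P.e d}) A
  haveI := infinite_H P
  haveI : Finite P.H := Module.Finite.finite_basis P.e
  exact not_finite P.H

theorem finiteType_of_filt (P : Filt F A g) : Algebra.FiniteType F A := by
  obtain ⟨N, hN⟩ := exists_bound P
  haveI := finite_adjoin P ⟨N + 1, hN _ (by omega)⟩ (Nat.succ_pos N)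
  haveI : Algebra.FiniteType F (Algebra.adjoin F {P.e ⟨N + 1, hN _ (by omega)⟩}) := by
    rw [← Subalgebra.fg_iff_finiteType]
    exact ⟨{P.e ⟨N + 1, hN _ (by omega)⟩}, by simp⟩
  exact Algebra.FiniteType.trans (S := Algebra.adjoin F {P.e ⟨N + 1, hN _ (by omega)⟩})
    inferInstance inferInstance

variable {L : Type} [IsDomain A] [Field L] [Algebra A L] [IsFractionRing A L] [Algebra F L]
  [IsScalarTower F A L]

/-- EC-A6 -/
theorem isFunctionField_of_filt (P : Filt F A g) : IsFunctionField F L := by
  obtain ⟨N, hN⟩ := exists_bound P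
  set d : P.H := ⟨N + 1, hN _ (by omega)⟩ with hd
  have hd0 : 0 < (d : ℕ) := Nat.succ_pos N
  haveI := finiteType_of_filt P
  refine ⟨?_, ?_⟩
  · haveI : Algebra.EssFiniteType A L :=
      Algebra.EssFiniteType.of_isLocalization L (nonZeroDivisors A)
    exact Algebra.EssFiniteType.comp F A L
  · haveI := finite_adjoin P d hd0
    have h1 : AlgebraicIndependent F (fun _ : Unit => P.e d) :=
      algebraicIndependent_unique_type_iff.mpr (transcendental_e P d hd0)
    have hrange : Set.range (fun _ : Unit => P.e d) = {P.e d} := Set.range_const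
    have h2 : IsTranscendenceBasis F (fun _ : Unit => P.e d) := by
      rw [h1.isTranscendenceBasis_iff_isAlgebraic, hrange]
      infer_instance
    have h3 := h2.cardinalMk_eq_trdeg
    haveI : Algebra.IsAlgebraic A L := IsLocalization.isAlgebraic L (nonZeroDivisors A)
    haveI : FaithfulSMul A L := (faithfulSMul_iff_algebraMap_injective A L).mpr
      (IsFractionRing.injective A L)
    have h4 := trdeg_add_eq F A (A := L)
    rw [trdeg_eq_zero (R := A) (A := L), add_zero, ← h3] at h4
    rw [← h4]
    simp

end A

end Pool.Agent.Helper88.EC
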